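import Mathlib

set_option autoImplicit false

open MeasureTheory Set Real

namespace Pool.Agent.Results.MP_b81f9a_an.LeRoyConverseFails

/-! ### Gauss multiplication formula up to a constant -/

/-- `m ^ x * ∏_{j < m} Γ((x + j) / m)`. -/
noncomputable def gg (m : ℕ) (x : ℝ) : ℝ := (m : ℝ) ^ x * ∏ j ∈ Finset.range m, Gamma ((x + j) / m)

theorem gg_pos {m : ℕ} (hm : 0 < m) {x : ℝ} (hx : 0 < x) : 0 < gg m x := by
  have hm' : (0 : ℝ) < m := by exact_mod_cast hm
  refine mul_pos (rpow_pos_of_pos hm' _) (Finset.prod_pos fun j _ => ?_)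
  exact Gamma_pos_of_pos (by positivity)

theorem gg_add_one {m : ℕ} (hm : 0 < m) {x : ℝ} (hx : 0 < x) : gg m (x + 1) = x * gg m x := by
  have hm' : (0 : ℝ) < m := by exact_mod_cast hm
  unfold gg
  have h1 : (∏ j ∈ Finset.range m, Gamma ((x + 1 + j) / m)) * Gamma (x / m) =
      (∏ j ∈ Finset.range m, Gamma ((x + j) / m)) * Gamma ((x + m) / m) := by
    have e1 := Finset.prod_range_succ (fun j : ℕ => Gamma ((x + j) / m)) m
    have e2 := Finset.prod_range_succ' (fun j : ℕ => Gamma ((x + j) / m)) m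
    rw [e1] at e2
    rw [e2]
    congr 1
    · refine Finset.prod_congr rfl fun j _ => ?_
      push_cast
      ring_nf
    · simp
  have h2 : Gamma ((x + m) / m) = x / m * Gamma (x / m) := by
    rw [show (x + m) / m = x / m + 1 by field_simp, Gamma_add_one (by positivity)]
  have h3 : Gamma (x / m) ≠ 0 := (Gamma_pos_of_pos (by positivity)).ne'
  have h4 : ∏ j ∈ Finset.range m, Gamma ((x + 1 + j) / m) =
      (x / m) * ∏ j ∈ Finset.range m, Gamma ((x + j) / m) := by
    apply mul_right_cancel₀ h3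
    rw [h1, h2]
    ring
  rw [h4, rpow_add hm', rpow_one]
  field_simp

theorem convexOn_finset_sum {ι : Type*} {s : Finset ι} {f : ι → ℝ → ℝ} {S : Set ℝ}
    (hS : Convex ℝ S) (h : ∀ i ∈ s, ConvexOn ℝ S (f i)) :
    ConvexOn ℝ S (fun x => ∑ i ∈ s, f i x) := by
  classical
  induction s using Finset.induction_on with
  | empty => simpa using convexOn_const (0 : ℝ) hS
  | insert a s ha ih =>
    have h1 := (h a (Finset.mem_insert_self _ _)).add
      (ih fun i hi => h i (Finset.mem_insert_of_mem hi))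
    refine h1.congr fun x _ => ?_
    simp [Finset.sum_insert ha]

theorem convexOn_log_Gamma_affine {m : ℝ} (hm : 0 < m) {c : ℝ} (hc : 0 ≤ c) :
    ConvexOn ℝ (Ioi (0 : ℝ)) (fun x => Real.log (Gamma ((x + c) / m))) := by
  refine ⟨convex_Ioi _, ?_⟩
  intro x hx y hy a b ha hb hab
  have hx' : (x + c) / m ∈ Ioi (0 : ℝ) := div_pos (add_pos_of_pos_of_nonneg hx hc) hm
  have hy' : (y + c) / m ∈ Ioi (0 : ℝ) := div_pos (add_pos_of_pos_of_nonneg hy hc) hm
  have h := convexOn_log_Gamma.2 hx' hy' ha hb hab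
  have e : (a • x + b • y + c) / m = a • ((x + c) / m) + b • ((y + c) / m) := by
    simp only [smul_eq_mul]
    have : c = (a + b) * c := by rw [hab, one_mul]
    nth_rw 1 [this]
    ring
  simp only
  rw [e]
  exact h

theorem multiplication {m : ℕ} (hm : 0 < m) :
    ∃ C : ℝ, 0 < C ∧ ∀ x : ℝ, 0 < x → Gamma x = C * gg m x := by
  have hm' : (0 : ℝ) < m := by exact_mod_cast hm
  have h1 : 0 < gg m 1 := gg_pos hm one_pos
  obtain ⟨C, hC⟩ : ∃ C, C = (gg m 1)⁻¹ := ⟨_, rfl⟩
  have hC0 : 0 < C := hC ▸ inv_pos.2 h1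
  refine ⟨C, hC0, ?_⟩
  have key : EqOn (fun x => C * gg m x) Gamma (Ioi 0) := by
    refine eq_Gamma_of_log_convex ?_ ?_ ?_ ?_
    · have h2 : ConvexOn ℝ (Ioi (0 : ℝ)) (fun x => (Real.log m * x + ∑ j ∈ Finset.range m,
          Real.log (Gamma ((x + j) / m))) + Real.log C) := by
        refine ConvexOn.add_const (ConvexOn.add ?_ ?_) _
        · exact (LinearMap.convexOn ((LinearMap.mulLeft ℝ (Real.log m))) (convex_Ioi 0))
        · exact convexOn_finset_sum (convex_Ioi _) fun j _ =>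
            convexOn_log_Gamma_affine hm' (Nat.cast_nonneg j)
      refine h2.congr fun x hx => ?_
      have hx' : (0 : ℝ) < x := hx
      simp only [Function.comp_apply]
      rw [Real.log_mul hC0.ne' (gg_pos hm hx').ne', gg,
        Real.log_mul (rpow_pos_of_pos hm' _).ne' (Finset.prod_ne_zero_iff.2 fun j _ =>
          (Gamma_pos_of_pos (by positivity)).ne'), Real.log_rpow hm',
        Real.log_prod (fun j _ => (Gamma_pos_of_pos (by positivity)).ne')]
      ring
    · intro y hy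
      change C * gg m (y + 1) = y * (C * gg m y)
      rw [gg_add_one hm hy]
      ring
    · intro y hy
      exact mul_pos hC0 (gg_pos hm hy)
    · change C * gg m 1 = 1
      rw [hC]
      exact inv_mul_cancel₀ h1.ne'
  intro x hx
  exact (key hx).symm

/-- The form used below. -/
theorem multiplication' {m : ℕ} (hm : 0 < m) :
    ∃ C : ℝ, 0 < C ∧ ∀ t : ℝ, 0 ≤ t → Gamma (m * t + 1) =
      C * (m : ℝ) ^ (m * t + 1) * ∏ j ∈ Finset.range m, Gamma (t + (j + 1) / m) := by
  have hm' : (0 : ℝ) < m := by exact_mod_cast hm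
  obtain ⟨C, hC, h⟩ := multiplication hm
  refine ⟨C, hC, fun t ht => ?_⟩
  rw [h _ (by positivity), gg, mul_assoc]
  congr 2
  refine Finset.prod_congr rfl fun j _ => ?_
  congr 1
  field_simp
  ring

/-! ### Stieltjes moment sequences -/

/-- `a` is a Stieltjes moment sequence: `a n = E[X ^ n]` for a nonnegative `X`. -/
def Stj (a : ℕ → ℝ) : Prop :=
  (∀ n, 0 ≤ a n) ∧ ∃ (Ω : Type) (_ : MeasurableSpace Ω) (μ : Measure Ω) (X : Ω → ℝ),
    Measurable X ∧ (∀ ω, 0 ≤ X ω) ∧
    ∀ n, ∫⁻ ω, ENNReal.ofReal (X ω ^ n) ∂μ = ENNReal.ofReal (a n)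

theorem Stj.mul {a b : ℕ → ℝ} (ha : Stj a) (hb : Stj b) : Stj (fun n => a n * b n) := by
  obtain ⟨ha0, Ω, _, μ, X, hX, hX0, hXa⟩ := ha
  obtain ⟨hb0, Ω', _, ν, Y, hY, hY0, hYb⟩ := hb
  have hfin : IsFiniteMeasure ν := by
    refine ⟨?_⟩
    have := hYb 0
    simp only [pow_zero, ENNReal.ofReal_one, lintegral_one] at this
    rw [this]
    exact ENNReal.ofReal_lt_top
  refine ⟨fun n => mul_nonneg (ha0 n) (hb0 n), Ω × Ω', inferInstance, μ.prod ν,
    fun z => X z.1 * Y z.2, by fun_prop, fun z => mul_nonneg (hX0 _) (hY0 _), fun n => ?_⟩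
  have : ∀ z : Ω × Ω', ENNReal.ofReal ((X z.1 * Y z.2) ^ n) =
      ENNReal.ofReal (X z.1 ^ n) * ENNReal.ofReal (Y z.2 ^ n) := by
    intro z
    rw [mul_pow, ENNReal.ofReal_mul (pow_nonneg (hX0 _) _)]
  simp_rw [this]
  rw [lintegral_prod_mul (f := fun x => ENNReal.ofReal (X x ^ n))
    (g := fun y => ENNReal.ofReal (Y y ^ n)) (by fun_prop) (by fun_prop), hXa, hYb,
    ENNReal.ofReal_mul (ha0 n)]

theorem Stj.geom {C c : ℝ} (hC : 0 ≤ C) (hc : 0 ≤ c) : Stj (fun n => C * c ^ n) := by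
  refine ⟨fun n => by positivity, Unit, ⊤, (ENNReal.ofReal C) • (Measure.dirac ()), fun _ => c,
    measurable_const, fun _ => hc, fun n => ?_⟩
  rw [lintegral_const]
  simp only [Measure.smul_apply, measure_univ, smul_eq_mul, mul_one]
  rw [ENNReal.ofReal_mul hC, mul_comm]

theorem Stj.prod {ι : Type*} (s : Finset ι) {a : ι → ℕ → ℝ} (h : ∀ i ∈ s, Stj (a i)) :
    Stj (fun n => ∏ i ∈ s, a i n) := by
  classical
  induction s using Finset.induction_on with
  | empty => simpa using Stj.geom (C := 1) (c := 1) zero_le_one zero_le_one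
  | insert i s hi ih =>
    have := (h i (Finset.mem_insert_self _ _)).mul
      (ih fun j hj => h j (Finset.mem_insert_of_mem hj))
    simpa [Finset.prod_insert hi] using this

theorem Stj.density {a : ℕ → ℝ} (h : ℝ → ℝ) (hm : Measurable h) (κ : ℝ)
    (ha : ∀ n, 0 ≤ a n)
    (hint : ∀ n : ℕ, ∫⁻ x in Ioi (0 : ℝ), ENNReal.ofReal (x ^ (κ * n) * h x) =
      ENNReal.ofReal (a n)) : Stj a := by
  refine ⟨ha, ℝ, inferInstance, (volume.restrict (Ioi 0)).withDensity
    (fun x => ENNReal.ofReal (h x)), fun x => |x| ^ κ, by fun_prop, fun x => by positivity,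
    fun n => ?_⟩
  rw [lintegral_withDensity_eq_lintegral_mul _ (by fun_prop) (by fun_prop), ← hint n]
  refine setLIntegral_congr_fun measurableSet_Ioi fun x hx => ?_
  have hx' : (0 : ℝ) < x := hx
  simp only [Pi.mul_apply]
  rw [abs_of_pos hx', ← rpow_natCast, ← rpow_mul hx'.le, mul_comm,
    ENNReal.ofReal_mul (rpow_nonneg hx'.le _)]

theorem Stj.beta {a c : ℝ} (ha : 0 < a) (hc : 0 < c) :
    Stj (fun n => ProbabilityTheory.beta ((1 / 72) * (n : ℝ) + a) c) := by
  refine Stj.density (fun x => if 0 < x ∧ x < 1 then x ^ (a - 1) * (1 - x) ^ (c - 1) else 0)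
    (Measurable.ite measurableSet_Ioo (by fun_prop) (by fun_prop)) (1 / 72)
    (fun n => (ProbabilityTheory.beta_pos (by positivity) hc).le) (fun n => ?_)
  have ha' : 0 < (1 / 72) * (n : ℝ) + a := by positivity
  have hb := ProbabilityTheory.beta_pos ha' hc
  rw [← lintegral_indicator measurableSet_Ioi]
  have key : ∀ x : ℝ, (Ioi (0 : ℝ)).indicator (fun x => ENNReal.ofReal (x ^ ((1 / 72) * (n : ℝ)) *
      (if 0 < x ∧ x < 1 then x ^ (a - 1) * (1 - x) ^ (c - 1) else 0))) x =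
      ENNReal.ofReal (ProbabilityTheory.beta ((1 / 72) * (n : ℝ) + a) c) *
        ProbabilityTheory.betaPDF ((1 / 72) * (n : ℝ) + a) c x := by
    intro x
    by_cases hx : 0 < x
    · rw [indicator_of_mem (show x ∈ Ioi (0 : ℝ) from hx), ProbabilityTheory.betaPDF_eq,
        ← ENNReal.ofReal_mul hb.le]
      congr 1
      by_cases hx1 : x < 1
      · rw [if_pos ⟨hx, hx1⟩, if_pos ⟨hx, hx1⟩,
          show (1 / 72) * (n : ℝ) + a - 1 = (1 / 72) * (n : ℝ) + (a - 1) by ring,
          rpow_add hx]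
        generalize ProbabilityTheory.beta ((1 / 72) * (n : ℝ) + a) c = B at hb ⊢
        field_simp
      · rw [if_neg (fun h => hx1 h.2), if_neg (fun h => hx1 h.2)]
        simp
    · rw [indicator_of_notMem (s := Ioi (0 : ℝ)) (by exact hx),
        ProbabilityTheory.betaPDF_eq_zero_of_nonpos (not_lt.1 hx), mul_zero]
  rw [lintegral_congr key, lintegral_const_mul' _ _ ENNReal.ofReal_ne_top,
    ProbabilityTheory.lintegral_betaPDF_eq_one ha' hc, mul_one]

theorem gamma_density {s : ℝ} (hs : 0 ≤ s) :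
    ∫⁻ x in Ioi (0 : ℝ), ENNReal.ofReal (x ^ s * (Real.exp (-x) * (x - 1 / 4) ^ 2)) =
      ENNReal.ofReal (Gamma (s + 1) * (s + 5 / 4) ^ 2) := by
  have c1 := Real.GammaIntegral_convergent (show 0 < s + 1 by linarith)
  have c2 := Real.GammaIntegral_convergent (show 0 < s + 1 + 1 by linarith)
  have c3 := Real.GammaIntegral_convergent (show 0 < s + 1 + 1 + 1 by linarith)
  have e : EqOn (fun x : ℝ => x ^ s * (Real.exp (-x) * (x - 1 / 4) ^ 2))
      (fun x => Real.exp (-x) * x ^ (s + 1 + 1 + 1 - 1) -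
        (1 / 2) * (Real.exp (-x) * x ^ (s + 1 + 1 - 1)) +
        (1 / 16) * (Real.exp (-x) * x ^ (s + 1 - 1))) (Ioi 0) := by
    intro x hx
    have hx' : (0 : ℝ) < x := hx
    simp only
    rw [show s + 1 + 1 + 1 - 1 = s + 2 by ring, show s + 1 + 1 - 1 = s + 1 by ring,
      show s + 1 - 1 = s by ring, rpow_add hx', rpow_add hx', rpow_one,
      show (2 : ℝ) = ((2 : ℕ) : ℝ) by norm_num, rpow_natCast]
    ring
  have hI : IntegrableOn (fun x => Real.exp (-x) * x ^ (s + 1 + 1 + 1 - 1) -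
        (1 / 2) * (Real.exp (-x) * x ^ (s + 1 + 1 - 1)) +
        (1 / 16) * (Real.exp (-x) * x ^ (s + 1 - 1))) (Ioi 0) :=
    (c3.sub (c2.const_mul _)).add (c1.const_mul _)
  have hI' : IntegrableOn (fun x : ℝ => x ^ s * (Real.exp (-x) * (x - 1 / 4) ^ 2)) (Ioi 0) :=
    hI.congr_fun e.symm measurableSet_Ioi
  rw [← ofReal_integral_eq_lintegral_ofReal hI' ?_]
  · congr 1
    rw [setIntegral_congr_fun measurableSet_Ioi e,
      integral_add (f := fun x => Real.exp (-x) * x ^ (s + 1 + 1 + 1 - 1) -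
        (1 / 2) * (Real.exp (-x) * x ^ (s + 1 + 1 - 1)))
        (g := fun x => (1 / 16) * (Real.exp (-x) * x ^ (s + 1 - 1)))
        (c3.sub (c2.const_mul _)) (c1.const_mul _),
      integral_sub (f := fun x => Real.exp (-x) * x ^ (s + 1 + 1 + 1 - 1))
        (g := fun x => (1 / 2) * (Real.exp (-x) * x ^ (s + 1 + 1 - 1))) c3 (c2.const_mul _),
      integral_const_mul, integral_const_mul,
      ← Real.Gamma_eq_integral (by linarith), ← Real.Gamma_eq_integral (by linarith),
      ← Real.Gamma_eq_integral (by linarith), Gamma_add_one (s := s + 1 + 1) (by linarith),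
      Gamma_add_one (s := s + 1) (by linarith)]
    ring
  · refine ae_restrict_of_forall_mem measurableSet_Ioi fun x hx => ?_
    have hx' : (0 : ℝ) < x := hx
    simp only [Pi.zero_apply]
    positivity

theorem Stj.gam : Stj (fun n => Gamma ((35 / 36) * (n : ℝ) + 1) *
    ((35 / 36) * (n : ℝ) + 5 / 4) ^ 2) := by
  refine Stj.density (fun x => Real.exp (-x) * (x - 1 / 4) ^ 2) (by fun_prop) (35 / 36)
    (fun n => ?_) (fun n => gamma_density (by positivity))
  have : 0 < Gamma ((35 / 36) * (n : ℝ) + 1) := Gamma_pos_of_pos (by positivity)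
  positivity

/-! ### Complete monotonicity -/

/-- Completely monotone on `(0, ∞)`. -/
def CompletelyMonotone (f : ℝ → ℝ) : Prop :=
  ContDiffOn ℝ (⊤ : ℕ∞) f (Ioi 0) ∧
    ∀ k : ℕ, ∀ x : ℝ, 0 < x → 0 ≤ (-1) ^ k * iteratedDerivWithin k f (Ioi 0) x

theorem cm_of_stj {a : ℕ → ℝ} (h : Stj a)
    (hs : ∀ x : ℝ, 0 ≤ x → Summable (fun n : ℕ => x ^ n / n.factorial * a n)) :
    CompletelyMonotone (fun x => ∑' n : ℕ, (-x) ^ n / n.factorial * a n) := by
  obtain ⟨ha0, Ω, _, μ, X, hX, hX0, hXa⟩ := h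
  have hfin : IsFiniteMeasure μ := by
    refine ⟨?_⟩
    have := hXa 0
    simp only [pow_zero, ENNReal.ofReal_one, lintegral_one] at this
    rw [this]
    exact ENNReal.ofReal_lt_top
  have hint : ∀ n, Integrable (fun ω => X ω ^ n) μ := by
    intro n
    rw [← lintegral_ofReal_ne_top_iff_integrable (by fun_prop)
      (Filter.Eventually.of_forall fun ω => pow_nonneg (hX0 ω) n), hXa]
    exact ENNReal.ofReal_ne_top
  have hmom : ∀ n, ∫ ω, X ω ^ n ∂μ = a n := by
    intro n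
    rw [integral_eq_lintegral_of_nonneg_ae
      (Filter.Eventually.of_forall fun ω => pow_nonneg (hX0 ω) n) (by fun_prop), hXa,
      ENNReal.toReal_ofReal (ha0 n)]
  have hexp : ∀ t : ℝ, Integrable (fun ω => Real.exp (t * X ω)) μ := by
    intro t
    rcases le_or_gt t 0 with ht | ht
    · refine Integrable.mono' (integrable_const (1 : ℝ)) (by fun_prop)
        (Filter.Eventually.of_forall fun ω => ?_)
      rw [Real.norm_eq_abs, abs_of_pos (Real.exp_pos _)]
      exact Real.exp_le_one_iff.2 (mul_nonpos_of_nonpos_of_nonneg ht (hX0 ω))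
    · rw [← lintegral_ofReal_ne_top_iff_integrable (by fun_prop)
        (Filter.Eventually.of_forall fun ω => (Real.exp_pos _).le)]
      have h1 : ∀ ω, ENNReal.ofReal (Real.exp (t * X ω)) =
          ∑' n : ℕ, ENNReal.ofReal ((t * X ω) ^ n / n.factorial) := by
        intro ω
        have h2 := NormedSpace.expSeries_div_hasSum_exp (t * X ω)
        rw [← Real.exp_eq_exp_ℝ] at h2
        rw [← h2.tsum_eq, ENNReal.ofReal_tsum_of_nonneg (fun n => ?_) h2.summable]
        have := hX0 ω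
        positivity
      simp_rw [h1]
      rw [lintegral_tsum (fun n => by fun_prop)]
      have h3 : ∀ n : ℕ, ∫⁻ ω, ENNReal.ofReal ((t * X ω) ^ n / n.factorial) ∂μ =
          ENNReal.ofReal (t ^ n / n.factorial * a n) := by
        intro n
        have h4 : ∀ ω, ENNReal.ofReal ((t * X ω) ^ n / n.factorial) =
            ENNReal.ofReal (t ^ n / n.factorial) * ENNReal.ofReal (X ω ^ n) := by
          intro ω
          rw [← ENNReal.ofReal_mul (by positivity), mul_pow]
          congr 1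
          ring
        simp_rw [h4]
        rw [lintegral_const_mul' _ _ ENNReal.ofReal_ne_top, hXa,
          ← ENNReal.ofReal_mul (by positivity)]
      simp_rw [h3]
      rw [← ENNReal.ofReal_tsum_of_nonneg (fun n => mul_nonneg (by positivity) (ha0 n))
        (hs t ht.le)]
      exact ENNReal.ofReal_ne_top
  have hset : ProbabilityTheory.integrableExpSet X μ = univ := by
    ext t
    simpa [ProbabilityTheory.integrableExpSet] using hexp t
  have hsum : ∀ x : ℝ, ∑' n : ℕ, (-x) ^ n / n.factorial * a n =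
      ProbabilityTheory.mgf X μ (-x) := by
    intro x
    have h1 : ∀ n : ℕ, Integrable (fun ω => ((-x) * X ω) ^ n / n.factorial) μ := by
      intro n
      simp_rw [mul_pow]
      exact ((hint n).const_mul _).div_const _
    have h2 : Summable fun n : ℕ => ∫ ω, ‖((-x) * X ω) ^ n / n.factorial‖ ∂μ := by
      refine (hs |x| (abs_nonneg x)).congr fun n => ?_
      have : ∀ ω, ‖((-x) * X ω) ^ n / n.factorial‖ = |x| ^ n / n.factorial * X ω ^ n := by
        intro ω
        rw [norm_div, norm_pow, norm_mul, norm_neg, Real.norm_eq_abs, Real.norm_eq_abs,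
          abs_of_nonneg (hX0 ω), mul_pow, Real.norm_natCast]
        ring
      simp_rw [this]
      rw [integral_const_mul, hmom]
    have h3 := hasSum_integral_of_summable_integral_norm h1 h2
    have h4 : ∀ ω, ∑' n : ℕ, ((-x) * X ω) ^ n / n.factorial = Real.exp ((-x) * X ω) := by
      intro ω
      have h2 := NormedSpace.expSeries_div_hasSum_exp ((-x) * X ω)
      rw [← Real.exp_eq_exp_ℝ] at h2
      exact h2.tsum_eq
    simp_rw [h4] at h3
    rw [ProbabilityTheory.mgf, ← h3.tsum_eq]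
    refine tsum_congr fun n => ?_
    simp_rw [mul_pow]
    rw [integral_div, integral_const_mul, hmom]
    ring
  have hfun : (fun x => ∑' n : ℕ, (-x) ^ n / n.factorial * a n) =
      fun x => ProbabilityTheory.mgf X μ (-x) := funext hsum
  rw [hfun]
  constructor
  · have h1 : ContDiff ℝ (⊤ : ℕ∞) (ProbabilityTheory.mgf X μ) := by
      have := ProbabilityTheory.analyticOnNhd_mgf (X := X) (μ := μ)
      rw [hset, interior_univ] at this
      exact contDiffOn_univ.1 (this.contDiffOn uniqueDiffOn_univ)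
    exact (h1.comp contDiff_neg).contDiffOn
  · intro k x hx
    rw [iteratedDerivWithin_of_isOpen isOpen_Ioi hx, iteratedDeriv_comp_neg,
      ProbabilityTheory.iteratedDeriv_mgf (by rw [hset, interior_univ]; trivial), smul_eq_mul,
      ← mul_assoc, ← mul_pow]
    norm_num
    exact integral_nonneg fun ω => mul_nonneg (pow_nonneg (hX0 ω) _) (Real.exp_pos _).le

/-! ### Growth of `Γ` -/

theorem Gamma_lower {K : ℝ} (hK : 1 ≤ K) {y : ℝ} (hy : 0 < y) :
    K ^ y * (Real.exp (-(K + 1)) / (K + 1)) ≤ Gamma y := by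
  have hK0 : 0 < K := by linarith
  rw [Real.Gamma_eq_integral hy]
  have hI := Real.GammaIntegral_convergent hy
  have hsub : Icc K (K + 1) ⊆ Ioi (0 : ℝ) := fun x hx => lt_of_lt_of_le hK0 hx.1
  have h1 : ∫ x in Icc K (K + 1), Real.exp (-x) * x ^ (y - 1) ≤
      ∫ x in Ioi 0, Real.exp (-x) * x ^ (y - 1) := by
    refine setIntegral_mono_set hI ?_ (LE.le.eventuallyLE hsub)
    refine ae_restrict_of_forall_mem measurableSet_Ioi fun x hx => ?_
    have hx' : (0 : ℝ) < x := hx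
    simp only [Pi.zero_apply]
    positivity
  refine le_trans ?_ h1
  have h2 : ∫ x in Icc K (K + 1), K ^ y * (Real.exp (-(K + 1)) / (K + 1)) ≤
      ∫ x in Icc K (K + 1), Real.exp (-x) * x ^ (y - 1) := by
    refine setIntegral_mono_on ?_ (hI.mono_set hsub) measurableSet_Icc fun x hx => ?_
    · exact continuous_const.integrableOn_Icc
    · have hx0 : 0 < x := lt_of_lt_of_le hK0 hx.1
      rw [rpow_sub hx0, rpow_one]
      have e1 : K ^ y ≤ x ^ y := rpow_le_rpow hK0.le hx.1 hy.le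
      have e2 : Real.exp (-(K + 1)) ≤ Real.exp (-x) := Real.exp_le_exp.2 (by linarith [hx.2])
      have e3 : x ^ y / (K + 1) ≤ x ^ y / x := by
        apply div_le_div_of_nonneg_left (by positivity) hx0 hx.2
      calc K ^ y * (Real.exp (-(K + 1)) / (K + 1))
          = Real.exp (-(K + 1)) * (K ^ y / (K + 1)) := by ring
        _ ≤ Real.exp (-x) * (x ^ y / x) := by
          apply mul_le_mul e2 _ (by positivity) (Real.exp_pos _).le
          exact le_trans (by gcongr) e3
  refine le_trans (le_of_eq ?_) h2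
  rw [setIntegral_const]
  simp

theorem summable_aux (x : ℝ) (hx : 0 ≤ x) :
    Summable (fun n : ℕ => x ^ n / (Gamma ((1 / 72) * (n : ℝ) + 1 / 56)) ^ 2) := by
  obtain ⟨L, hL⟩ : ∃ L : ℝ, L = 2 * x + 2 := ⟨_, rfl⟩
  have hL1 : 2 ≤ L := by linarith
  have hL0 : 0 < L := by linarith
  obtain ⟨K, hKd⟩ : ∃ K : ℝ, K = L ^ 36 := ⟨_, rfl⟩
  have hK : 1 ≤ K := by
    rw [hKd]
    exact one_le_pow₀ (by linarith)
  have hK0 : 0 < K := by linarith
  obtain ⟨D, hD⟩ : ∃ D : ℝ, D = K ^ ((1 : ℝ) / 56) * (Real.exp (-(K + 1)) / (K + 1)) := ⟨_, rfl⟩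
  have hD0 : 0 < D := by
    rw [hD]
    positivity
  have hb : ∀ n : ℕ, x ^ n / (Gamma ((1 / 72) * (n : ℝ) + 1 / 56)) ^ 2 ≤
      (1 / D ^ 2) * (1 / 2) ^ n := by
    intro n
    have h1 := Gamma_lower hK (y := (1 / 72) * (n : ℝ) + 1 / 56) (by positivity)
    have h2 : K ^ ((1 / 72) * (n : ℝ) + 1 / 56) * (Real.exp (-(K + 1)) / (K + 1)) =
        K ^ ((1 / 72) * (n : ℝ)) * D := by
      rw [hD, rpow_add hK0]
      ring
    rw [h2] at h1
    have h3 : (K ^ ((1 / 72) * (n : ℝ))) ^ 2 = L ^ n := by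
      rw [← rpow_natCast, ← rpow_mul hK0.le, hKd, ← rpow_natCast, ← rpow_mul hL0.le,
        ← rpow_natCast]
      congr 1
      push_cast
      ring
    have h4 : L ^ n * D ^ 2 ≤ (Gamma ((1 / 72) * (n : ℝ) + 1 / 56)) ^ 2 := by
      rw [← h3, ← mul_pow]
      exact pow_le_pow_left₀ (by positivity) h1 2
    have h5 : x ^ n * 2 ^ n ≤ L ^ n := by
      rw [← mul_pow]
      exact pow_le_pow_left₀ (by positivity) (by linarith) n
    have hG : 0 < Gamma ((1 / 72) * (n : ℝ) + 1 / 56) := Gamma_pos_of_pos (by positivity)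
    rw [div_le_iff₀ (by positivity)]
    have h6 : ((1 : ℝ) / 2) ^ n * 2 ^ n = 1 := by
      rw [← mul_pow]
      norm_num
    calc x ^ n = x ^ n * (((1 : ℝ) / 2) ^ n * 2 ^ n) := by rw [h6, mul_one]
      _ = (1 / D ^ 2) * (1 / 2) ^ n * ((x ^ n * 2 ^ n) * D ^ 2) := by field_simp
      _ ≤ (1 / D ^ 2) * (1 / 2) ^ n * (L ^ n * D ^ 2) := by gcongr
      _ ≤ (1 / D ^ 2) * (1 / 2) ^ n * (Gamma ((1 / 72) * (n : ℝ) + 1 / 56)) ^ 2 := by gcongr
  refine Summable.of_nonneg_of_le (fun n => by positivity) hb ?_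
  exact (summable_geometric_of_lt_one (by norm_num) (by norm_num)).mul_left _

/-! ### The counterexample -/

theorem stj_main : Stj (fun n : ℕ => (n.factorial : ℝ) /
    (Gamma ((1 / 72) * (n : ℝ) + 1 / 56)) ^ 2) := by
  obtain ⟨C1, hC1, hm1⟩ := multiplication' (m := 72) (by norm_num)
  obtain ⟨C2, hC2, hm2⟩ := multiplication' (m := 70) (by norm_num)
  have hdiff : ∀ j : ℕ, (0 : ℝ) < ((j : ℝ) + 1) / 70 - ((j : ℝ) + 1) / 72 := by
    intro j
    have : (0 : ℝ) ≤ j := Nat.cast_nonneg j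
    linarith
  obtain ⟨Q, hQ⟩ : ∃ Q : ℝ, Q = ∏ j ∈ Finset.range 70,
    Gamma (((j : ℝ) + 1) / 70 - ((j : ℝ) + 1) / 72) := ⟨_, rfl⟩
  have hQ0 : 0 < Q := by
    rw [hQ]
    exact Finset.prod_pos fun j _ => Gamma_pos_of_pos (hdiff j)
  have hg1 : 0 < Gamma (1 + 1 / 56 - 71 / 72 : ℝ) := Gamma_pos_of_pos (by norm_num)
  have hg2 : 0 < Gamma (1 / 56 : ℝ) := Gamma_pos_of_pos (by norm_num)
  have hS := ((((Stj.geom (C := C1 * 72 / (C2 * 70 ^ 3 * Q * Gamma (1 + 1 / 56 - 71 / 72 : ℝ) *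
    Gamma (1 / 56 : ℝ))) (c := 72 / (70 : ℝ) ^ ((35 : ℝ) / 36)) (by positivity)
    (by positivity)).mul Stj.gam).mul
    (Stj.prod (Finset.range 70) (a := fun j n => ProbabilityTheory.beta
      ((1 / 72) * (n : ℝ) + ((j : ℝ) + 1) / 72) (((j : ℝ) + 1) / 70 - ((j : ℝ) + 1) / 72))
      (fun j _ => Stj.beta (by positivity) (hdiff j)))).mul
    (Stj.beta (a := 71 / 72) (c := 1 + 1 / 56 - 71 / 72) (by norm_num) (by norm_num))).mul
    (Stj.beta (a := 1) (c := 1 / 56) (by norm_num) (by norm_num))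
  refine cast (congrArg Stj (funext fun n => ?_)) hS
  obtain ⟨t, ht⟩ : ∃ t : ℝ, t = (1 / 72) * (n : ℝ) := ⟨_, rfl⟩
  have ht0 : 0 ≤ t := by
    rw [ht]
    positivity
  have e1 := hm1 t ht0
  have e2 := hm2 t ht0
  push_cast at e1 e2
  have e3 : Gamma (72 * t + 1) = n.factorial := by
    rw [← Real.Gamma_nat_eq_factorial]
    congr 1
    rw [ht]
    ring
  have e4 : (72 : ℝ) ^ (72 * t + 1) = 72 ^ n * 72 := by
    rw [rpow_add (by norm_num), rpow_one, ← rpow_natCast]
    congr 2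
    rw [ht]
    ring
  have e5 : (70 : ℝ) ^ (70 * t + 1) = ((70 : ℝ) ^ ((35 : ℝ) / 36)) ^ n * 70 := by
    rw [rpow_add (by norm_num), rpow_one, ← rpow_natCast ((70 : ℝ) ^ ((35 : ℝ) / 36)) n,
      ← rpow_mul (by norm_num)]
    congr 2
    rw [ht]
    ring
  rw [e3, e4, Finset.prod_range_succ, Finset.prod_range_succ] at e1
  rw [e5] at e2
  rw [show t + (((70 : ℕ) : ℝ) + 1) / 72 = t + 71 / 72 by norm_num,
    show t + (((71 : ℕ) : ℝ) + 1) / 72 = t + 1 by norm_num] at e1
  have e6 : (35 / 36 : ℝ) * n = 70 * t := by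
    rw [ht]
    ring
  have e7 : ∏ j ∈ Finset.range 70, ProbabilityTheory.beta (t + ((j : ℝ) + 1) / 72)
      (((j : ℝ) + 1) / 70 - ((j : ℝ) + 1) / 72) =
      (∏ j ∈ Finset.range 70, Gamma (t + ((j : ℝ) + 1) / 72)) * Q /
        ∏ j ∈ Finset.range 70, Gamma (t + ((j : ℝ) + 1) / 70) := by
    rw [hQ, ← Finset.prod_mul_distrib, ← Finset.prod_div_distrib]
    refine Finset.prod_congr rfl fun j _ => ?_
    rw [ProbabilityTheory.beta]
    congr 2
    ring
  have e8 : ProbabilityTheory.beta (t + 71 / 72) (1 + 1 / 56 - 71 / 72) =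
      Gamma (t + 71 / 72) * Gamma (1 + 1 / 56 - 71 / 72 : ℝ) / ((t + 1 / 56) *
        Gamma (t + 1 / 56)) := by
    rw [ProbabilityTheory.beta, ← Gamma_add_one (by positivity)]
    congr 2
    ring
  have e9 : ProbabilityTheory.beta (t + 1) (1 / 56) =
      Gamma (t + 1) * Gamma (1 / 56 : ℝ) / ((t + 1 / 56) * Gamma (t + 1 / 56)) := by
    rw [ProbabilityTheory.beta, ← Gamma_add_one (by positivity)]
    congr 2
    ring
  have hp1 : 0 < ∏ j ∈ Finset.range 70, Gamma (t + ((j : ℝ) + 1) / 70) :=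
    Finset.prod_pos fun j _ => Gamma_pos_of_pos (by positivity)
  have hG : 0 < Gamma (t + 1 / 56) := Gamma_pos_of_pos (by positivity)
  simp only [e6, ← ht, e7, e8, e9, e1, e2]
  have hκ : 0 < (70 : ℝ) ^ ((35 : ℝ) / 36) := by positivity
  have htp : 0 < t + 1 / 56 := by positivity
  rw [show (70 * t + 5 / 4 : ℝ) = 70 * (t + 1 / 56) by ring]
  clear hS hm1 hm2 e1 e2 e3 e4 e5 e6 e7 e8 e9 hQ hdiff ht
  generalize (70 : ℝ) ^ ((35 : ℝ) / 36) = κ at *
  generalize (∏ x ∈ Finset.range 70, Gamma (t + ((x : ℝ) + 1) / 70)) = P2 at *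
  generalize (∏ x ∈ Finset.range 70, Gamma (t + ((x : ℝ) + 1) / 72)) = P1 at *
  generalize Gamma (t + 71 / 72) = G1 at *
  generalize Gamma (t + 1) = G2 at *
  generalize Gamma (t + 1 / 56) = G3 at *
  generalize Gamma (1 + 1 / 56 - 71 / 72 : ℝ) = G4 at *
  generalize Gamma (1 / 56 : ℝ) = G5 at *
  generalize t + 1 / 56 = τ at *
  rw [div_pow]
  field_simp

/-- The Le Roy type Mittag-Leffler function `F_{α,β}^{(γ)}` at a real argument. -/
noncomputable def leRoy (α β γ z : ℝ) : ℝ := ∑' n : ℕ, z ^ n / (Gamma (α * n + β)) ^ γ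

/-- Condition `(C_{α,β,γ})`. -/
def CondC (α β γ : ℝ) : Prop :=
  ∀ z ∈ Ioo (0 : ℝ) 1, z + γ * (z ^ (β - α) - z ^ β) ≤ 1

theorem cm_main : CompletelyMonotone (fun x => leRoy (1 / 72) (1 / 56) 2 (-x)) := by
  have h := cm_of_stj stj_main (fun x hx => by
    refine (summable_aux x hx).congr fun n => ?_
    have : (n.factorial : ℝ) ≠ 0 := by exact_mod_cast n.factorial_ne_zero
    field_simp)
  refine cast (congrArg CompletelyMonotone (funext fun x => ?_)) h
  unfold leRoy
  refine tsum_congr fun n => ?_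
  have : (n.factorial : ℝ) ≠ 0 := by exact_mod_cast n.factorial_ne_zero
  rw [show (2 : ℝ) = ((2 : ℕ) : ℝ) by norm_num, rpow_natCast]
  field_simp

theorem not_condC : ¬ CondC (1 / 72) (1 / 56) 2 := by
  intro h
  have hw : (0 : ℝ) < 81 / 100 := by norm_num
  have h1 := h ((81 / 100 : ℝ) ^ (504 : ℝ)) ⟨by positivity, rpow_lt_one hw.le (by norm_num)
    (by norm_num)⟩
  rw [← rpow_mul hw.le, ← rpow_mul hw.le,
    show (504 : ℝ) * (1 / 56 - 1 / 72) = ((2 : ℕ) : ℝ) by norm_num,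
    show (504 : ℝ) * (1 / 56) = ((9 : ℕ) : ℝ) by norm_num, rpow_natCast, rpow_natCast] at h1
  have h2 : (0 : ℝ) < (81 / 100 : ℝ) ^ (504 : ℝ) := by positivity
  generalize (81 / 100 : ℝ) ^ (504 : ℝ) = Z at h1 h2
  norm_num at h1
  linarith

/-- **The converse fails**: there are `α, β, γ > 0` for which `x ↦ F_{α,β}^{(γ)}(-x)` is completely
monotone on `(0, ∞)` although the condition `(C_{α,β,γ})` does not hold
(`α = 1/72`, `β = 1/56`, `γ = 2`). -/
theorem result : ∃ α β γ : ℝ, 0 < α ∧ 0 < β ∧ 0 < γ ∧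
    (∀ x : ℝ, Summable fun n : ℕ => x ^ n / (Gamma (α * n + β)) ^ γ) ∧
    CompletelyMonotone (fun x => leRoy α β γ (-x)) ∧ ¬ CondC α β γ := by
  refine ⟨1 / 72, 1 / 56, 2, by norm_num, by norm_num, by norm_num, ?_, cm_main, not_condC⟩
  intro x
  refine Summable.of_norm ?_
  refine (summable_aux |x| (abs_nonneg x)).congr fun n => ?_
  rw [norm_div, norm_pow, Real.norm_eq_abs, show (2 : ℝ) = ((2 : ℕ) : ℝ) by norm_num,
    rpow_natCast, norm_pow, Real.norm_eq_abs, sq_abs]

end Pool.Agent.Results.MP_b81f9a_an.LeRoyConverseFails
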